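import Pool.Agent.H.MP_a41846_al.I

namespace Pool.Agent.Results.MP_a41846_al.Yes

theorem result (r : ℕ) :
    ComputablePred fun L : List (Fin r × Bool) =>
      ∃ (φ : MulAut (FreeGroup (Fin r))) (a : Fin r),
        (a, true) ∈ (φ (FreeGroup.mk L)).toWord ∧ (a, false) ∉ (φ (FreeGroup.mk L)).toWord :=
  Pool.Agent.H.MP_a41846_al.dec r

end Pool.Agent.Results.MP_a41846_al.Yes
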